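import Mathlib
import Pool.Agent.Q29.EP.RowsCT
import Pool.Agent.Y1.CT.More

/-!
# Semisimplicity of Frobenius for `A × U`, for one half of all slope types of
every CM field of degree `2 r ^ k`

Let `K i` (`i` in a finite set) be CM fields of degree `2 g i` which are pairwise independent: for
`i ≠ k` and all complex embeddings `φ` of `K i` and `ψ` of `K k` some automorphism of `ℂ` is the
identity on `φ (K i)` and the complex conjugation on `ψ (K k)` (this is no condition if there is
only one field).

We fix an isomorphism `ν` of the algebraic closure of `ℚ_p` with `ℂ`; it defines a `p`-adic
valuation of `ℂ`, with the value one at `p`. Let `M i` be a function with integral values on the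
complex embeddings of `K i`, invariant under complex conjugation (the weights). A CM type `Φ i` of
`K i` (a choice of one element out of each complex conjugate pair of embeddings), `M i` and a real
number `κ ≠ 0` prescribe the slopes `(a + κ M) / 2` (at the embeddings in `Φ i`) and `(a - κ M) / 2`
(outside of `Φ i`) of a Weil number for `p ^ a` in `K i`. If `p` splits completely in `K i` then, by
Honda and Tate, all rational slopes between `0` and `a` that are symmetric in this way occur for
abelian varieties over finite fields. The case `M = 1`, `κ = a` is the ordinary case.

**The property of the slope types.** For a family of types `Φ i` the property `Q` is the following.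
Let `π i` be Weil numbers for `q = p ^ a` that generate the fields `K i` and have the slope types
`Φ i`, `M i` (`HasType`), and let `f i` be monic polynomials whose complex roots are conjugates of
`π i` (`IsPolyOf`), for instance the characteristic polynomials of Frobenius of the abelian varieties
in the isogeny classes of the `π i` over the field with `q` elements. Let `A` be an abelian variety over the field with `Q = q ^ s` elements which is isogenous to a
product of powers of abelian varieties coming from the field with `q` elements, with characteristic
polynomials `f i`, and let `U` be **any** variety over the field with `Q` elements such that

* in each degree the eigenvalues `ρ` of Frobenius on the cohomology with compact supports of `U` and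
  their conjugates are independent of the fields `K i` (`Independent`): for each complex embedding
  `ψ` of `K i` there is an automorphism `τ` of `ℂ` which fixes a power of `ρ` and is the complex
  conjugation on `ψ (K i)`. This is so if the eigenvalues have powers in a number field which is
  linearly disjoint from the normal closures of the `K i`, or powers in a totally real field.

Then **for all `i` the eigenvalue `Q ^ i` of Frobenius on the cohomology of degree `2 i` with compact
supports of `A × U` is semisimple (`SS_i(A × U)` for all `i`), if and only if this is true for `U`**
(`SemisimpleTimes`). Nothing is assumed about cycles, and `U` can be singular and open.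

The cohomology of `A × U` of degree `m` is `⨁ ⋀^n V ⊗ H^(m - n)(U)` by the formula of Kunneth
(`TH44.SS.Total`), `V` the first cohomology of `A`. The homology groups of the question are dual to
the cohomology with compact supports, up to a twist.

**The theorem.** Let `E` be **any CM field of degree `2 g = 2 r ^ k`**, `r` a prime number, of
degree at least `16` if `r = 2`. Nothing is assumed about the Galois group of the normal closure of
`E`, and nothing about the subfields of `E`.

* (`HalfOfAll`) For all weights `M` (odd if `r = 2`; if `r` is odd then `r` may divide some, but not
  all of them) the property `Q` is true for **at least one half of all `2 ^ g` types** of `E`.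
* (`MostWithWeightsOne`) For the weights `M = 1` (for instance in the ordinary case) it is true for
  at least `(1 - 1 / r) 2 ^ g` of the types.
* (`OneOfTwo`) There is a set `B` of embeddings of `E`, stable under complex conjugation, such that
  for **every** type `Φ` it is true for `Φ` or for the symmetric difference of `Φ` and `B`.
* (`SixteenPercent`) There is a number `g₀` such that for every CM field that is **abelian over
  `ℚ`**, of any degree `2 g ≥ 2 g₀`, and all odd weights it is true for at least 16 percent of all
  `2 ^ g` types; again nothing is assumed on the subfields.

All this is proved more generally for finitely many pairwise independent fields `K i`; the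
proportions are then multiplied. The estimate `AllCMTypesTimes` says nothing for these fields if they
have many CM subfields (for instance for the multiquadratic ones, where one half is the best possible
proportion for the types without relations).

The proof: if no multiplicative relations between the Frobenius eigenvalues of `A` and those of `U` are left, then
the generalized eigenspace for `Q ^ i` of `⋀^n V ⊗ H^(2 i - n)(U)` comes from the eigenvalues `Q ^ k` of
`⋀^n V`, `n = 2 k`, on which Frobenius is semisimple, and the eigenvalue `Q ^ (i - k)` of `H^(2 i - 2 k)(U)`
(`Y1/CT` of the starting files). The proportion of the types without such relations is at least one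
half by the theorem of the starting files (`Q29/DP`, `Q29/EP`), which was used there for other
conjectures.
-/

set_option autoImplicit false

namespace Pool.Agent.Results.MP_16ef92_ag.HalfOfAllTimes

open NumberField Module Pool.Agent.H204R3.CM Pool.Agent.H977R3.CM Pool.Agent.Y1.KN
  Pool.Agent.Y1.CT Pool.Agent.Q29.EP

open Pool.Agent.Q29.DP (of_independent)

/-- The property of the slope types `Φ i` with the weights `M i`. -/
def Q : TypeProperty := fun _ _ ν _ _ K _ _ _ M Φ => ForAllTypes ν K M (SemisimpleTimes K) Φ

/-- **The eigenvalues `Q ^ i` of Frobenius are semisimple on the cohomology of `A × U` if and only if they are on the one of `U`,
for the abelian varieties `A` with one half of all slope types of every CM field of degree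
`2 r ^ k`.** -/
theorem result : HalfOfAll Q ∧ MostWithWeightsOne Q ∧ OneOfTwo Q ∧ SixteenPercent Q := by
  have h : WithoutRelations Q := of_independent (P := fun _ K _ => SemisimpleTimes K)
    fun _ _ _ _ _ _ hQ hR => semisimpleTimes hQ hR
  exact ⟨halfOfAll h, mostWithWeightsOne h, oneOfTwo h, sixteenPercent h⟩

end Pool.Agent.Results.MP_16ef92_ag.HalfOfAllTimes
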