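import Mathlib
import Pool.Agent.Y1.CT.Main
import Pool.Agent.Y1.CT.More
import Pool.Agent.Run7.h479.SO.MainI
import Pool.Agent.Run7.h479.SO.Criteria

/-!
# Semisimplicity of the Frobenius eigenvalue 1 for the products of abelian varieties whose slopes on a
half orbit do not sum to a sum of prime divisors with arbitrary varieties

Let `π i` be finitely many Weil numbers for `q = p ^ a` in CM fields `F i` of degree `2 n i`, with
`π i * conj (π i) = q`, and let `f i` be monic polynomials whose complex roots are conjugates of `π i`
(`IsPolyOf`), for instance the characteristic polynomials of Frobenius of the abelian varieties in
the isogeny classes of the `π i` over the field with `q` elements. We assume (`HoldsForHalfOrbits`):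

* (`HalfOrbit`) There is a set `O` of complex embeddings of `F i`, one of each pair of complex
  conjugate embeddings, which is an orbit of a group of automorphisms of `ℂ` that acts on `O`
  through a commutative group. By Chebotarev's density theorem it is enough that some prime number is
  inert in the maximal real subfield of `F i` and splits in `F i` (then one automorphism generates a
  group with such an orbit; this is proved in the file `Criteria.lean`). If `F i` contains an
  imaginary quadratic field `E`, it is enough that some prime number is inert in the maximal real
  subfield (whose normal closure is real, and so linearly disjoint from `E`), and `O` is the set of
  the embeddings that extend a given embedding of `E`.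
* (`GoodSlopes`) We write `cdev ν a x φ = 2 ord_p (x) - a` for the deviation of the slope of `x` at
  the embedding `φ` from the middle, where an isomorphism `ν` of the algebraic closure of `ℚ_p` with
  `ℂ` makes `φ` a `p`-adic embedding. For some `ν` the sum of the deviations of `π i` over `O` is not
  zero; and for some `ν` the deviations of `π i` on `O` are `b w + c` with real numbers `b ≠ 0`, `c`
  and natural numbers `w`, such that **the sum `k` of the numbers `w` over `O` is not a sum of prime
  divisors of `n i`** (with repetitions; `0` is the empty sum).
* (`Separated`, only if there are several fields) For `i ≠ i'` some automorphism acts on the complex
  embeddings of each of the fields as `1` or as the complex conjugation, as `1` for `F i` and as the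
  complex conjugation for `F i'`.

For instance let there be one field and let the slopes be `λ` and `1 - λ` only, `λ ≠ 1/2` (`λ = 0` is
the ordinary case). Then `w` can be the characteristic function of the set of the embeddings in `O`
with slope `1 - λ`, and `k` is the number of these embeddings; by the same argument for the
complement, it is enough that `k` or `n - k` is not a sum of prime divisors of `n` (and `2 k ≠ n`).
For `n = 15` the only signatures `(k, n - k)` which are excluded are those with `k` or `n - k` equal
to `0, 3, 5, 6`. In general the condition is true if `0 < k` is less than all prime divisors of `n`,
and if `k = r s - r - s` and `n` is divisible by no primes other than `r` and `s` (proved in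
`Criteria.lean`). Conversely, the condition cannot be improved for the cyclic group of order `n`: if
`k` is a sum of prime divisors of `n` then it is the sum of the values of a function `w` which is a
sum of characteristic functions of cosets of subgroups of prime order, and the translates of this
`w` do not span the functions on the group.

Let `A` be an abelian variety over the field with `Q = q ^ s` elements which is isogenous to a product
of powers of abelian varieties coming from the field with `q` elements, with characteristic
polynomials `f i`, and let `U` be **any** variety over the field with `Q` elements (not necessarily
smooth or proper) such that the eigenvalues `ρ` of Frobenius on the cohomology with compact supports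
of `U` and their conjugates are independent of the fields `F i` (`Independent`): for each complex
embedding `ψ` of `F i` there is an automorphism `τ` of `ℂ` which fixes a power of `ρ` and is the
complex conjugation on `ψ (F i)`. This is so if the eigenvalues have powers in a number field which
is linearly disjoint from the normal closures of the `F i`, or powers in a totally real field (take
for `τ` the complex conjugation).

**Then the eigenvalue `Q ^ i` of Frobenius on `H^{2 i}_c(A × U, ℚ_ℓ)` is semisimple for all `i`, if
and only if this is true for `U`** (`SemisimpleTimes`). By duality the statement for all `i` says that
`SS_i (A × U)` is true for all `i` if and only if `SS_i (U)` is true for all `i`: the homology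
`H_{2 i}(U, ℚ_ℓ(i))` is dual to `H^{2 i}_c(U, ℚ_ℓ(i))`. The variety `U` is arbitrary: singular or not
proper.

In the formal statement `V` is the first cohomology group of `A` over the field with `q` elements,
`F` the Frobenius endomorphism, `H m` the cohomology of `U` with compact supports and coefficients in
an algebraically closed field (identified with `ℂ`), `G m` its Frobenius endomorphism, and
`total (F ^ s) G` the Frobenius endomorphism of the cohomology of `A × U` (Künneth). The deduction of
the conclusion from the absence of relations is due to helper1.

The starting results treat the case of large Galois groups and the case of almost all slope types.
Here the degrees are arbitrary, the Galois groups may be as small as cyclic groups, and the condition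
is explicit.

The proof. Suppose that the product of `ρ` and of some powers `φ (π i) ^ m (i, φ)` is a power of
`q`, up to a root of unity, for an eigenvalue `ρ` as above. For an automorphism `τ` which fixes a power
of `ρ` and is the complex conjugation on the embeddings of one of the fields the quotient of the
relation and its image is a relation without `ρ`. So it is enough to consider relations without `ρ`.
Let `c (i, φ) = m (i, φ) - m (i, conj φ)`. The `p`-adic valuations of the images under the
automorphisms `σ` give `∑ c (i, φ) * cdev (σ φ) = 0`. `Separated` and Dedekind's theorem on the linear
independence of characters (of the group of the automorphisms acting as `± 1`) give these relations
for every `i` separately. The sum over the orbit `O` and the first slope condition give `∑_O c = 0`,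
and then the second slope condition gives `∑_O c (φ) w (σ φ) = 0` for all `σ` in the group. The
commutative transitive group `B` of permutations of `O` is simply transitive, so `w` is a function on
the group `B`, and if `c ≠ 0`, then a Fourier coefficient `∑ w (b) ψ (b)` of `w` for a character `ψ`
of `B` is zero. Its terms are `k` roots of unity of order dividing `n`, and by the theorem of Lam and
Leung (1996) on vanishing sums of roots of unity the number `k` of terms is a sum of prime divisors of
`n`, a contradiction. The theorem of Lam and Leung is proved in the files `LL`.
-/

set_option autoImplicit false

namespace Pool.Agent.Results.MP_16ef92_ag.VanishingSums

open NumberField Pool.Agent.Y1.CT Pool.Agent.Run7.h142.TF Pool.Agent.Run7.h479.SO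

/-- **Semisimplicity of the eigenvalue 1 for `A × U` is equivalent to the one for `U`, for the abelian
varieties `A` whose slopes on a half orbit do not sum to a sum of prime divisors and all independent
varieties `U`.** -/
theorem result : HoldsForHalfOrbits (fun _ K _ q f => SemisimpleTimes K q f) :=
  holdsForHalfOrbits_indep fun _ _ _ _ _ hQ hR => semisimpleTimes hQ hR

end Pool.Agent.Results.MP_16ef92_ag.VanishingSums
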